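import Pool.Agent.Phantom.Defs

/-!
# Anticanonical curves: general lemmas on triangulated categories
-/

set_option autoImplicit false
set_option linter.unusedSectionVars false

open CategoryTheory CategoryTheory.Limits CategoryTheory.Pretriangulated

universe v u w

namespace Pool.Agent.Phantom

section Grothendieck

variable {C : Type u} [Category.{v} C] [Preadditive C] [HasZeroObject C] [HasShift C ℤ]
  [∀ n : ℤ, (shiftFunctor C n).Additive] [Pretriangulated C]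
  {D : Type u} [Category.{v} D] [Preadditive D] [HasZeroObject D] [HasShift D ℤ]
  [∀ n : ℤ, (shiftFunctor D n).Additive] [Pretriangulated D]

lemma cls_triangle (T : Triangle C) (hT : T ∈ distTriang C) :
    cls T.obj₂ = cls T.obj₁ + cls T.obj₃ := by
  have h : (QuotientAddGroup.mk (FreeAbelianGroup.of T.obj₂ - FreeAbelianGroup.of T.obj₁
      - FreeAbelianGroup.of T.obj₃) : K0 C) = 0 := by
    rw [QuotientAddGroup.eq_zero_iff]
    exact AddSubgroup.subset_closure ⟨T, hT, rfl⟩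
  have h2 : cls T.obj₂ - cls T.obj₁ - cls T.obj₃ = 0 := h
  rw [sub_sub, sub_eq_zero] at h2
  exact h2

/-- The map on Grothendieck groups induced by a triangulated functor. -/
noncomputable def k0Map (F : C ⥤ D) [F.CommShift ℤ] [F.IsTriangulated] : K0 C →+ K0 D :=
  QuotientAddGroup.map _ _ (FreeAbelianGroup.map F.obj) (by
    rw [AddSubgroup.closure_le]
    rintro z ⟨T, hT, rfl⟩
    apply AddSubgroup.subset_closure
    refine ⟨F.mapTriangle.obj T, F.map_distinguished T hT, ?_⟩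
    simp)

lemma k0Map_cls (F : C ⥤ D) [F.CommShift ℤ] [F.IsTriangulated] (X : C) :
    k0Map F (cls X) = cls (F.obj X) := by
  unfold k0Map cls
  simp

lemma cls_map_eq_zero (F : C ⥤ D) [F.CommShift ℤ] [F.IsTriangulated] [Subsingleton (K0 C)]
    (X : C) : cls (F.obj X) = 0 := by
  rw [← k0Map_cls, Subsingleton.elim (cls X) 0, map_zero]

end Grothendieck

section Exact

variable {C : Type u} [Category.{v} C] [Preadditive C] [HasZeroObject C] [HasShift C ℤ]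
  [∀ n : ℤ, (shiftFunctor C n).Additive] [Pretriangulated C]
  {X Y Z : C} {f : X ⟶ Y} {g : Y ⟶ Z} {h : Z ⟶ X⟦(1 : ℤ)⟧}

lemma comp12 (hT : Triangle.mk f g h ∈ distTriang C) : f ≫ g = 0 :=
  comp_distTriang_mor_zero₁₂ _ hT

lemma comp23 (hT : Triangle.mk f g h ∈ distTriang C) : g ≫ h = 0 :=
  comp_distTriang_mor_zero₂₃ _ hT

lemma comp31 (hT : Triangle.mk f g h ∈ distTriang C) : h ≫ f⟦(1 : ℤ)⟧' = 0 :=
  comp_distTriang_mor_zero₃₁ _ hT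

lemma yo2 (hT : Triangle.mk f g h ∈ distTriang C) {W : C} (φ : Y ⟶ W) (hφ : f ≫ φ = 0) :
    ∃ ψ : Z ⟶ W, φ = g ≫ ψ :=
  Triangle.yoneda_exact₂ _ hT φ hφ

lemma yo3 (hT : Triangle.mk f g h ∈ distTriang C) {W : C} (φ : Z ⟶ W) (hφ : g ≫ φ = 0) :
    ∃ ψ : X⟦(1 : ℤ)⟧ ⟶ W, φ = h ≫ ψ :=
  Triangle.yoneda_exact₃ _ hT φ hφ

lemma yo1 (hT : Triangle.mk f g h ∈ distTriang C) {W : C} (φ : X⟦(1 : ℤ)⟧ ⟶ W)
    (hφ : h ≫ φ = 0) : ∃ ψ : Y⟦(1 : ℤ)⟧ ⟶ W, φ = f⟦(1 : ℤ)⟧' ≫ ψ := by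
  obtain ⟨ψ, hψ⟩ := Triangle.yoneda_exact₃ _ (rot_of_distTriang _ hT) φ hφ
  change Y⟦(1 : ℤ)⟧ ⟶ W at ψ
  refine ⟨-ψ, ?_⟩
  rw [hψ]
  change (-f⟦(1 : ℤ)⟧') ≫ ψ = _
  simp

lemma co1 (hT : Triangle.mk f g h ∈ distTriang C) {W : C} (φ : W ⟶ X⟦(1 : ℤ)⟧)
    (hφ : φ ≫ f⟦(1 : ℤ)⟧' = 0) : ∃ ψ : W ⟶ Z, φ = ψ ≫ h :=
  Triangle.coyoneda_exact₁ _ hT φ hφ

lemma co2 (hT : Triangle.mk f g h ∈ distTriang C) {W : C} (φ : W ⟶ Y) (hφ : φ ≫ g = 0) :
    ∃ ψ : W ⟶ X, φ = ψ ≫ f :=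
  Triangle.coyoneda_exact₂ _ hT φ hφ

lemma co3 (hT : Triangle.mk f g h ∈ distTriang C) {W : C} (φ : W ⟶ Z) (hφ : φ ≫ h = 0) :
    ∃ ψ : W ⟶ Y, φ = ψ ≫ g :=
  Triangle.coyoneda_exact₃ _ hT φ hφ

end Exact

end Pool.Agent.Phantom
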