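import Pool.Agent.Phantom.Endo

/-!
# Admissible subcategories and the two consequences of duality
-/

set_option autoImplicit false
set_option linter.unusedSectionVars false

open CategoryTheory CategoryTheory.Limits CategoryTheory.Pretriangulated

universe v u w

namespace Pool.Agent.Phantom

section Ortho

variable {A : Type u} [Category.{v} A] [Preadditive A] [HasZeroObject A] [HasShift A ℤ]
  [∀ n : ℤ, (shiftFunctor A n).Additive] [Pretriangulated A]
  {D : Type u} [Category.{v} D] [Preadditive D] [HasZeroObject D] [HasShift D ℤ]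
  [∀ n : ℤ, (shiftFunctor D n).Additive] [Pretriangulated D]

/-- The cone of the counit `αα^! X → X` is right orthogonal to the image of `α`. -/
lemma ortho_right (α : A ⥤ D) [α.CommShift ℤ] [α.IsTriangulated] [α.Full] [α.Faithful]
    {β : D ⥤ A} (adj : α ⊣ β) {X C : D} {g : X ⟶ C} {h : C ⟶ (α.obj (β.obj X))⟦(1 : ℤ)⟧}
    (hT : Triangle.mk (adj.counit.app X) g h ∈ distTriang D) (G : A) (j : ℤ)
    (f : α.obj G ⟶ C⟦j⟧) : f = 0 := by
  let := adj.rightAdjointCommShift ℤ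
  have := adj.commShift_of_leftAdjoint ℤ
  have : β.IsTriangulated := adj.isTriangulated_rightAdjoint
  have h1 := β.map_distinguished _ hT
  have h2 : IsZero (β.obj C) := by
    have : IsIso (β.map (adj.counit.app X)) := inferInstance
    exact Triangle.isZero₃_of_isIso₁ _ h1 this
  have h3 : IsZero (β.obj (C⟦j⟧)) := by
    have h4 : IsZero ((β.obj C)⟦j⟧) := (shiftFunctor A j).map_isZero h2
    exact h4.of_iso ((β.commShiftIso j).app C)
  have h5 : (adj.homEquiv _ _) f = (adj.homEquiv _ _) 0 := h3.eq_of_tgt _ _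
  exact (adj.homEquiv _ _).injective h5

/-- The fibre of the unit `X → αα^* X` is left orthogonal to the image of `α`. -/
lemma ortho_left (α : A ⥤ D) [α.CommShift ℤ] [α.IsTriangulated] [α.Full] [α.Faithful]
    {β : D ⥤ A} (adj : β ⊣ α) {X B : D} {f : B ⟶ X} {h : (α.obj (β.obj X)) ⟶ B⟦(1 : ℤ)⟧}
    (hT : Triangle.mk f (adj.unit.app X) h ∈ distTriang D) (G : A) (g : B ⟶ α.obj G) : g = 0 := by
  let := adj.leftAdjointCommShift ℤ
  have := adj.commShift_of_rightAdjoint ℤ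
  have : β.IsTriangulated := adj.isTriangulated_leftAdjoint
  have h1 := β.map_distinguished _ hT
  have h2 : IsZero (β.obj B) := by
    have : IsIso (β.map (adj.unit.app X)) := inferInstance
    exact Triangle.isZero₁_of_isIso₂ _ h1 this
  have h5 : (adj.homEquiv _ _).symm g = (adj.homEquiv _ _).symm 0 := h2.eq_of_src _ _
  exact (adj.homEquiv _ _).symm.injective h5

end Ortho

section Dual

variable {A : Type u} [Category.{v} A] [Preadditive A] [HasZeroObject A] [HasShift A ℤ]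
  [∀ n : ℤ, (shiftFunctor A n).Additive] [Pretriangulated A]
  {D : Type u} [Category.{v} D] [Preadditive D] [HasZeroObject D] [HasShift D ℤ]
  [∀ n : ℤ, (shiftFunctor D n).Additive] [Pretriangulated D]

/-- Precomposition with the counit `αα^! X → X` is a bijection on maps to `N(αG)[1]`, where `N` is
the Serre functor shifted by `-2`. -/
lemma precomp_bijective (α : A ⥤ D) [α.CommShift ℤ] [α.IsTriangulated] [α.Full] [α.Faithful]
    {β : D ⥤ A} (adj : α ⊣ β) (N : D → D)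
    (hS : ∀ X Y : D, (∀ f : X ⟶ Y, f = 0) → ∀ g : Y ⟶ (N X)⟦(2 : ℤ)⟧, g = 0)
    (X : D) (G : A) :
    Function.Bijective
      (fun h : X ⟶ (N (α.obj G))⟦(1 : ℤ)⟧ => adj.counit.app X ≫ h) := by
  obtain ⟨C, p, q, hT⟩ := distinguished_cocone_triangle (adj.counit.app X)
  have hC : ∀ (j : ℤ) (f : α.obj G ⟶ C⟦j⟧), f = 0 := fun j f => ortho_right α adj hT G j f
  -- the isomorphism `(Y[1])[1] = Y[2]`
  have e : ((N (α.obj G))⟦(1 : ℤ)⟧)⟦(1 : ℤ)⟧ ≅ (N (α.obj G))⟦(2 : ℤ)⟧ :=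
    ((shiftFunctorAdd' D (1 : ℤ) 1 2 (by norm_num)).app _).symm
  -- maps from `C` vanish
  have v2 : ∀ g : C ⟶ ((N (α.obj G))⟦(1 : ℤ)⟧)⟦(1 : ℤ)⟧, g = 0 := by
    intro g
    have h0 : ∀ f : α.obj G ⟶ C, f = 0 := by
      intro f
      have := hC 0 (f ≫ (shiftFunctorZero D ℤ).inv.app C)
      exact (cancel_mono ((shiftFunctorZero D ℤ).inv.app C)).1 (this.trans zero_comp.symm)
    have := hS _ _ h0 (g ≫ e.hom)
    exact (cancel_mono e.hom).1 (this.trans zero_comp.symm)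
  have v1 : ∀ g : C ⟶ (N (α.obj G))⟦(1 : ℤ)⟧, g = 0 := by
    intro g
    have := hS _ _ (hC 1) (g⟦(1 : ℤ)⟧' ≫ e.hom)
    have h1 : g⟦(1 : ℤ)⟧' = 0 := (cancel_mono e.hom).1 (this.trans zero_comp.symm)
    exact (shiftFunctor D (1 : ℤ)).map_injective (h1.trans (Functor.map_zero _ _ _).symm)
  constructor
  · intro h h' hh
    have h1 : adj.counit.app X ≫ (h - h') = 0 := by
      rw [Preadditive.comp_sub, sub_eq_zero]; exact hh
    obtain ⟨ψ, hψ⟩ := yo2 hT (h - h') h1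
    rw [v1 ψ, comp_zero, sub_eq_zero] at hψ
    exact hψ
  · intro f
    obtain ⟨ψ, hψ⟩ := yo1 hT (f⟦(1 : ℤ)⟧') (v2 _)
    obtain ⟨h, rfl⟩ := (shiftFunctor D (1 : ℤ)).map_surjective ψ
    refine ⟨h, ?_⟩
    apply (shiftFunctor D (1 : ℤ)).map_injective
    rw [hψ, Functor.map_comp]

variable {E : Type u} [Category.{v} E] [Preadditive E] [HasZeroObject E] [HasShift E ℤ]
  [∀ n : ℤ, (shiftFunctor E n).Additive] [Pretriangulated E]

/-- The counit `Pαα^! Q x → x` of the composed adjunction. -/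
noncomputable abbrev eps {α : A ⥤ D} {β : D ⥤ A} (adj : α ⊣ β) {P : D ⥤ E} {Q : E ⥤ D}
    (adj' : P ⊣ Q) (x : E) : P.obj (α.obj (β.obj (Q.obj x))) ⟶ x :=
  P.map (adj.counit.app (Q.obj x)) ≫ adj'.counit.app x

lemma homEquiv_eps_comp {α : A ⥤ D} {β : D ⥤ A} (adj : α ⊣ β) {P : D ⥤ E} {Q : E ⥤ D}
    (adj' : P ⊣ Q) (x y : E) (g : x ⟶ y) :
    (adj'.homEquiv _ _) (eps adj adj' x ≫ g) = adj.counit.app (Q.obj x) ≫ Q.map g := by
  rw [adj'.homEquiv_unit]
  simp [eps]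

lemma eps_exists {α : A ⥤ D} {β : D ⥤ A} (adj : α ⊣ β) {P : D ⥤ E} {Q : E ⥤ D}
    (adj' : P ⊣ Q) (x : E) (G : A) (m : (α ⋙ P).obj G ⟶ x) :
    ∃ a : G ⟶ β.obj (Q.obj x), (α ⋙ P).map a ≫ eps adj adj' x = m := by
  have h1 : α.map ((adj.homEquiv G (Q.obj x)) ((adj'.homEquiv (α.obj G) x) m)) ≫
      adj.counit.app (Q.obj x) = (adj'.homEquiv (α.obj G) x) m := by
    have := (adj.homEquiv G (Q.obj x)).symm_apply_apply ((adj'.homEquiv (α.obj G) x) m)
    rwa [adj.homEquiv_counit] at this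
  have h2 : P.map ((adj'.homEquiv (α.obj G) x) m) ≫ adj'.counit.app x = m := by
    have := (adj'.homEquiv (α.obj G) x).symm_apply_apply m
    rwa [adj'.homEquiv_counit] at this
  refine ⟨(adj.homEquiv G (Q.obj x)) ((adj'.homEquiv (α.obj G) x) m), ?_⟩
  rw [eps, ← Category.assoc, Functor.comp_map, ← Functor.map_comp]
  rw [h1, h2]

lemma eps_unique {α : A ⥤ D} {β : D ⥤ A} (adj : α ⊣ β) {P : D ⥤ E} {Q : E ⥤ D}
    (adj' : P ⊣ Q) (x : E) (G : A) (a b : G ⟶ β.obj (Q.obj x))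
    (h : (α ⋙ P).map a ≫ eps adj adj' x = (α ⋙ P).map b ≫ eps adj adj' x) : a = b := by
  have key : ∀ c : G ⟶ β.obj (Q.obj x), (adj.homEquiv _ _).symm c =
      (adj'.homEquiv _ _) ((α ⋙ P).map c ≫ eps adj adj' x) := by
    intro c
    rw [adj.homEquiv_counit, adj'.homEquiv_unit]
    simp [eps]
  apply (adj.homEquiv _ _).symm.injective
  rw [key, key, h]

/-- Duality for the pair `(P, Q)`: the two statements `Dec` and `Inj`. -/
lemma dec_inj (α : A ⥤ D) [α.CommShift ℤ] [α.IsTriangulated] [α.Full] [α.Faithful]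
    {β : D ⥤ A} (adj : α ⊣ β) {P : D ⥤ E} {Q : E ⥤ D} [P.Additive] (adj' : P ⊣ Q) (N : D → D)
    (hS : ∀ X Y : D, (∀ f : X ⟶ Y, f = 0) → ∀ g : Y ⟶ (N X)⟦(2 : ℤ)⟧, g = 0)
    (inc : ∀ X, N X ⟶ X) (conn : ∀ X, Q.obj (P.obj X) ⟶ (N X)⟦(1 : ℤ)⟧)
    (dist : ∀ X, Triangle.mk (inc X) (adj'.unit.app X) (conn X) ∈ distTriang D)
    (dual : ∀ (x : E) (X : D), Function.Bijective
      (fun g : x ⟶ P.obj X => Q.map g ≫ conn X)) (x : E) :
    (∀ (G : A) (f : P.obj (α.obj (β.obj (Q.obj x))) ⟶ P.obj (α.obj G)),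
      ∃ (g : x ⟶ P.obj (α.obj G)) (a : β.obj (Q.obj x) ⟶ G),
        f = eps adj adj' x ≫ g + P.map (α.map a)) ∧
    (∀ (G : A) (g : x ⟶ P.obj (α.obj G)), eps adj adj' x ≫ g = 0 → g = 0) := by
  have hQ : Q.Additive := adj'.right_adjoint_additive
  have hV := fun G => precomp_bijective α adj N hS (Q.obj x) G
  have hκ : ∀ (G : A) (g : x ⟶ P.obj (α.obj G)), (adj'.homEquiv _ _) (eps adj adj' x ≫ g) =
      (adj.counit.app (Q.obj x) : α.obj (β.obj (Q.obj x)) ⟶ Q.obj x) ≫ Q.map g :=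
    fun G g => homEquiv_eps_comp adj adj' x _ g
  constructor
  · intro G f
    obtain ⟨h, hh⟩ := (hV G).2 ((adj'.homEquiv _ _) f ≫ conn (α.obj G))
    obtain ⟨g, hg⟩ := (dual x (α.obj G)).2 h
    dsimp only at hh hg
    obtain ⟨a', ha'⟩ := co3 (dist (α.obj G))
      ((adj'.homEquiv _ _) f - (adj'.homEquiv _ _) (eps adj adj' x ≫ g)) (by
        rw [Preadditive.sub_comp, hκ, Category.assoc, hg]
        exact sub_eq_zero.2 hh.symm)
    refine ⟨g, α.preimage a', ?_⟩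
    rw [Functor.map_preimage]
    apply (adj'.homEquiv _ _).injective
    rw [sub_eq_iff_eq_add] at ha'
    rw [ha', adj'.homEquiv_unit, adj'.homEquiv_unit, Functor.map_add, Preadditive.comp_add,
      add_comm]
    simp
  · intro G g hg
    have h1 : (adj.counit.app (Q.obj x) : α.obj (β.obj (Q.obj x)) ⟶ Q.obj x) ≫ Q.map g = 0 := by
      rw [← hκ, hg, adj'.homEquiv_unit, Functor.map_zero, comp_zero]
    have h2 : Q.map g ≫ conn (α.obj G) = 0 := by
      apply (hV G).1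
      dsimp only
      rw [← Category.assoc, h1, zero_comp, comp_zero]
    apply (dual x (α.obj G)).1
    dsimp only
    rw [h2, Functor.map_zero, zero_comp]

end Dual

end Pool.Agent.Phantom
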