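import Mathlib

/-!
# Anticanonical curves and the Grothendieck group: definitions

Definitions used in the statement of `Pool.Agent.Results.MP_64ea52_ag.NoPhantoms.result`.
-/

set_option autoImplicit false

open CategoryTheory CategoryTheory.Limits CategoryTheory.Pretriangulated

universe v u w

namespace Pool.Agent.Phantom

section K0

variable (C : Type u) [Category.{v} C] [Preadditive C] [HasZeroObject C] [HasShift C ℤ]
  [∀ n : ℤ, (shiftFunctor C n).Additive] [Pretriangulated C]

/-- The relations of the Grothendieck group: the elements `[X₂] - [X₁] - [X₃]` of the free abelian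
group on the objects, one for each distinguished triangle `X₁ → X₂ → X₃ → X₁[1]`. -/
def k0Relations : Set (FreeAbelianGroup C) :=
  {z | ∃ T ∈ distTriang C, z = FreeAbelianGroup.of T.obj₂ - FreeAbelianGroup.of T.obj₁
    - FreeAbelianGroup.of T.obj₃}

/-- The Grothendieck group `K₀` of a triangulated category: the abelian group with a generator
`[X]` for each object `X` and the relation `[X₂] = [X₁] + [X₃]` for each distinguished triangle
`X₁ → X₂ → X₃ → X₁[1]`. -/
abbrev K0 : Type u := FreeAbelianGroup C ⧸ AddSubgroup.closure (k0Relations C)

end K0

/-- The class `[X]` of an object `X` in the Grothendieck group. -/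
def cls {C : Type u} [Category.{v} C] [Preadditive C] [HasZeroObject C] [HasShift C ℤ]
    [∀ n : ℤ, (shiftFunctor C n).Additive] [Pretriangulated C] (X : C) : K0 C :=
  QuotientAddGroup.mk (FreeAbelianGroup.of X)

/-- All endomorphisms of `X` are scalars. -/
def HasScalarEnd (k : Type w) [Field k] {C : Type u} [Category.{v} C] [Preadditive C] [Linear k C]
    (X : C) : Prop :=
  ∀ f : X ⟶ X, ∃ c : k, f = c • 𝟙 X

/-- `X` is a *simple* object of a triangulated category, *determined by its class*: its
endomorphisms are scalars, there are no nonzero maps from `X` to `X[2m]` for `m ≠ 0`, and every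
object with scalar endomorphisms and with the same class in `K₀` is isomorphic to `X[2m]` for some
integer `m`.

In the derived category of a smooth curve of genus one the structure sheaves of points and the line
bundles are such objects: an object with scalar endomorphisms is a shift `F[i]` of a simple sheaf
`F`, and `K₀` is `ℤ ⊕ Pic`, by the rank and the determinant. -/
structure IsSimpleOfClass (k : Type w) [Field k] {C : Type u} [Category.{v} C] [Preadditive C]
    [Linear k C] [HasZeroObject C] [HasShift C ℤ] [∀ n : ℤ, (shiftFunctor C n).Additive]
    [Pretriangulated C] (X : C) : Prop where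
  scalar : HasScalarEnd k X
  vanish : ∀ m : ℤ, m ≠ 0 → ∀ f : X ⟶ X⟦2 * m⟧, f = 0
  unique : ∀ M : C, HasScalarEnd k M → cls M = cls X → ∃ m : ℤ, Nonempty (M ≅ X⟦2 * m⟧)

section Curve

variable {D E : Type u} [Category.{v} D] [Preadditive D] [HasZeroObject D] [HasShift D ℤ]
  [∀ n : ℤ, (shiftFunctor D n).Additive] [Pretriangulated D]
  [Category.{v} E] [Preadditive E] [HasZeroObject E] [HasShift E ℤ]
  [∀ n : ℤ, (shiftFunctor E n).Additive] [Pretriangulated E]

/-- The properties of an anticanonical curve which the theorem uses, for an adjunction `P ⊣ Q`
between `k`-linear triangulated categories `D` and `E`.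

Let `i : C → S` be the inclusion of a smooth connected curve `C ∈ |-K_S|` in a smooth projective
complex surface `S` with countable Picard group (for instance, a rational surface).  Then all of
them hold for `D = D^b(S)`, `E = D^b(C)`, `P = i^*`, `Q = i_*` and `N = - ⊗ ω_S`.  Here `line`
consists of the line bundles on `S`, and `pt` is the structure sheaf of a point `p` of `C` that lies
outside of a countable set. -/
structure AnticanonicalCurve (k : Type w) [Field k] [Linear k D] [Linear k E] {P : D ⥤ E}
    {Q : E ⥤ D} (adj : P ⊣ Q) where
  /-- `N X` is `X ⊗ ω_S`. -/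
  N : D → D
  /-- The map `N X → X` given by the equation of `C`, a section of the inverse of `ω_S`. -/
  inc : ∀ X, N X ⟶ X
  /-- The connecting map `QPX → (N X)[1]`. -/
  conn : ∀ X, Q.obj (P.obj X) ⟶ (N X)⟦(1 : ℤ)⟧
  /-- The exact sequence `0 → ω_S → 𝒪_S → 𝒪_C → 0`, tensored with `X`, is a distinguished triangle
  `N X → X → QPX → (N X)[1]`; the map in the middle is the unit of the adjunction. -/
  dist : ∀ X, Triangle.mk (inc X) (adj.unit.app X) (conn X) ∈ distTriang D
  /-- Duality for `C` in `S`: the connecting map is the counit `i_* i^!((N X)[1]) → (N X)[1]`. -/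
  duality : ∀ (x : E) (X : D), Function.Bijective (fun g : x ⟶ P.obj X => Q.map g ≫ conn X)
  /-- Serre duality on `S`. -/
  serre : ∀ X Y : D, Nonempty (Module.Dual k (X ⟶ Y) ≃ₗ[k] (Y ⟶ (N X)⟦(2 : ℤ)⟧))
  /-- An object of `E` is zero if its direct image is zero. -/
  conservative : ∀ x : E, IsZero (Q.obj x) → IsZero x
  /-- The rank of an object of `D`. -/
  rank : K0 D →+ ℤ
  /-- The line bundles on `S`. -/
  line : ObjectProperty D
  /-- The endomorphisms of a line bundle on `S` are scalars. -/
  line_scalar : ∀ L, line L → HasScalarEnd k L
  /-- The rank of a line bundle is not zero. -/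
  line_rank : ∀ L, line L → rank (cls L) ≠ 0
  /-- The line bundles detect the nonzero objects of `D`. -/
  line_test : ∀ X : D, (∀ L, line L → ∀ (j : ℤ) (f : L ⟶ X⟦j⟧), f = 0) → IsZero X
  /-- The restriction of a line bundle to `C` is simple and determined by its class. -/
  line_simple : ∀ L, line L → IsSimpleOfClass k (P.obj L)
  /-- The structure sheaf of a point `p` of `C`. -/
  pt : E
  /-- The sheaf `pt` is simple and determined by its class. -/
  pt_simple : IsSimpleOfClass k pt
  /-- There is a nonzero map from every restricted line bundle to `pt`. -/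
  line_pt : ∀ L, line L → ∃ f : P.obj L ⟶ pt, f ≠ 0
  /-- Let the restriction of `X` to `C` be `pt ⊕ pt[2m - 1]`.  If there are no nonzero maps from `B`
  to the shifts of `X`, then `B` has rank zero.

  Indeed `X|_C` has support `{p}`.  So a curve in the support of `X` through `p` would meet `C` in
  `p` only, and there are only countably many points of `C` with such a curve, as `Pic S` is
  countable; `p` is chosen outside of them.  So `p` is an isolated point of the support of `X`, and
  `X` has a nonzero direct summand with support `{p}`.  By Nakayama's lemma an object of nonzero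
  rank has a nonzero map to a shift of this summand. -/
  pt_test : ∀ (X B : D) (m : ℤ), Nonempty (P.obj X ≅ pt ⊞ pt⟦2 * m - 1⟧) →
    (∀ (j : ℤ) (f : B ⟶ X⟦j⟧), f = 0) → rank (cls B) = 0

end Curve

end Pool.Agent.Phantom
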