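import Pool.Agent.Phantom.Basic

/-!
# Endomorphisms of the cone of the counit
-/

set_option autoImplicit false
set_option linter.unusedSectionVars false

open CategoryTheory CategoryTheory.Limits CategoryTheory.Pretriangulated

universe v u w

namespace Pool.Agent.Phantom

section Endo

variable {k : Type w} [Field k]
  {A : Type u} [Category.{v} A] [Preadditive A] [Linear k A] [HasZeroObject A] [HasShift A ℤ]
  [∀ n : ℤ, (shiftFunctor A n).Additive] [Pretriangulated A]
  {E : Type u} [Category.{v} E] [Preadditive E] [Linear k E] [HasZeroObject E] [HasShift E ℤ]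
  [∀ n : ℤ, (shiftFunctor E n).Additive] [∀ n : ℤ, (shiftFunctor E n).Linear k]
  [Pretriangulated E]

/-- The key lemma: let `ε : F r → x` be couniversal among the maps from objects `F G` to `x`, and
let `x` have only scalar endomorphisms.  Let `F r → x → T → (F r)[1]` be a distinguished triangle
whose first map is `ε`.  If every map `F r → F G` is a sum `ε ≫ g + F(a)`, and if `ε ≫ g = 0`
implies `g = 0` for every `g : x → F G`, then `T` has only scalar endomorphisms. -/
lemma scalarEnd_cone (F : A ⥤ E) [F.CommShift ℤ] [F.Additive] [F.Linear k] (x : E) (r : A)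
    (ε : F.obj r ⟶ x) (hx : HasScalarEnd k x)
    (hex : ∀ (G : A) (m : F.obj G ⟶ x), ∃ a : G ⟶ r, F.map a ≫ ε = m)
    (huniq : ∀ (G : A) (a b : G ⟶ r), F.map a ≫ ε = F.map b ≫ ε → a = b)
    (hdec : ∀ (G : A) (f : F.obj r ⟶ F.obj G),
      ∃ (g : x ⟶ F.obj G) (a : r ⟶ G), f = ε ≫ g + F.map a)
    (hinj : ∀ (G : A) (g : x ⟶ F.obj G), ε ≫ g = 0 → g = 0)
    (T : E) (w : x ⟶ T) (d : T ⟶ (F.obj r)⟦(1 : ℤ)⟧)
    (hT : Triangle.mk ε w d ∈ distTriang E) :
    HasScalarEnd k T := by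
  intro u
  -- the basic relations
  have e1 : ε ≫ w = 0 := comp12 hT
  have e2 : w ≫ d = 0 := comp23 hT
  have e3 : d ≫ ε⟦(1 : ℤ)⟧' = 0 := comp31 hT
  -- every map from an object in the image of `F` to `x` is killed by `w`
  have kill : ∀ (G : A) (m : F.obj G ⟶ x), m ≫ w = 0 := by
    intro G m
    obtain ⟨a, rfl⟩ := hex G m
    rw [Category.assoc, e1, comp_zero]
  have kill1 : ∀ (m : (F.obj r)⟦(1 : ℤ)⟧ ⟶ x), m ≫ w = 0 := by
    intro m
    have := kill (r⟦(1 : ℤ)⟧) ((F.commShiftIso (1 : ℤ)).hom.app r ≫ m)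
    rw [Category.assoc] at this
    exact (cancel_epi ((F.commShiftIso (1 : ℤ)).hom.app r)).1 (this.trans comp_zero.symm)
  -- step 1: `w ≫ u = c • w`
  have h1 : (w ≫ u) ≫ d = 0 := by
    have := hinj (r⟦(1 : ℤ)⟧)
      (((w ≫ u) ≫ d) ≫ (F.commShiftIso (1 : ℤ)).inv.app r) (by
        simp only [← Category.assoc]
        rw [e1, zero_comp, zero_comp, zero_comp])
    exact (cancel_mono ((F.commShiftIso (1 : ℤ)).inv.app r)).1 (this.trans zero_comp.symm)
  obtain ⟨ψ, hψ⟩ := co3 hT (w ≫ u) h1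
  obtain ⟨c, hc⟩ := hx ψ
  have h2 : w ≫ u = c • w := by
    rw [hψ, hc]; simp
  -- step 2: `u - c` factors through `d`
  obtain ⟨h, hh⟩ := yo3 hT (u - c • 𝟙 T) (by
    rw [Preadditive.comp_sub, h2]; simp)
  -- step 3: decompose `h ≫ d`
  obtain ⟨f, hf⟩ := (shiftFunctor E (1 : ℤ)).map_surjective (h ≫ d)
  obtain ⟨g, a, hga⟩ := hdec r f
  have h3 : f ≫ ε = 0 := by
    apply (shiftFunctor E (1 : ℤ)).map_injective
    rw [Functor.map_comp, hf, Category.assoc, e3, comp_zero, Functor.map_zero]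
  obtain ⟨c', hc'⟩ := hx (g ≫ ε)
  have h4 : a = -(c' • 𝟙 _) := by
    have e4 : F.map a ≫ ε = -(c' • ε) := by
      rw [hga, Preadditive.add_comp, Category.assoc, hc'] at h3
      rw [eq_neg_iff_add_eq_zero, add_comm, ← h3]
      simp
    have e5 : F.map (-(c' • 𝟙 r)) ≫ ε = -(c' • ε) := by
      simp [Functor.map_neg, Functor.map_smul]
    exact huniq r _ _ (e4.trans e5.symm)
  have h5 : h ≫ d = ε⟦(1 : ℤ)⟧' ≫ g⟦(1 : ℤ)⟧' - c' • 𝟙 _ := by
    rw [← hf, hga, h4]
    simp [Functor.map_neg, Functor.map_smul, sub_eq_add_neg]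
  by_cases hw : w = 0
  · -- `d` is a monomorphism
    have : Mono d := Triangle.mono₃ _ hT hw
    refine ⟨c - c', ?_⟩
    have : u - c • 𝟙 T = -(c' • 𝟙 T) := by
      rw [← cancel_mono d, hh, Category.assoc, h5, Preadditive.comp_sub, ← Category.assoc, e3]
      simp
    rw [sub_eq_iff_eq_add] at this
    rw [this, sub_smul]
    abel
  · -- `c' = 0`
    have hc0 : c' = 0 := by
      by_contra hne
      have : c' • w = 0 := by
        have e6 : (g ≫ ε) ≫ w = 0 := by rw [Category.assoc, e1, comp_zero]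
        rw [hc'] at e6
        simpa using e6
      exact hw ((smul_eq_zero.1 this).resolve_left hne)
    subst hc0
    rw [zero_smul] at hc'
    rw [zero_smul, sub_zero] at h5
    -- `g[1]` factors through `d`
    obtain ⟨φ, hφ⟩ := co1 hT (g⟦(1 : ℤ)⟧') (by
      rw [← Functor.map_comp, hc', Functor.map_zero])
    obtain ⟨m, hm⟩ := co3 hT (h - ε⟦(1 : ℤ)⟧' ≫ φ) (by
      rw [Preadditive.sub_comp, Category.assoc, ← hφ, h5, sub_self])
    rw [kill1 m, sub_eq_zero] at hm
    refine ⟨c, ?_⟩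
    have : u - c • 𝟙 T = 0 := by
      rw [hh, hm, ← Category.assoc, e3, zero_comp]
    rwa [sub_eq_zero] at this

end Endo

end Pool.Agent.Phantom
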