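import Pool.Agent.Phantom.Simple

/-!
# No phantoms on a surface with a smooth anticanonical curve
-/

set_option autoImplicit false
set_option linter.unusedSectionVars false

open CategoryTheory CategoryTheory.Limits CategoryTheory.Pretriangulated

universe v u w

namespace Pool.Agent.Phantom

section Zero

variable {C : Type u} [Category.{v} C] [Preadditive C] [HasZeroObject C] [HasShift C ℤ]
  [∀ n : ℤ, (shiftFunctor C n).Additive] [Pretriangulated C]

lemma cls_of_isZero {B : C} (h : IsZero B) : cls B = 0 := by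
  have h1 : Triangle.mk (𝟙 B) (0 : B ⟶ B) (0 : B ⟶ B⟦(1 : ℤ)⟧) ∈ distTriang C := by
    rw [Triangle.distinguished_iff_of_isZero₃ _ h]
    change IsIso (𝟙 B)
    infer_instance
  have h2 := cls_triangle _ h1
  change cls B = cls B + cls B at h2
  simpa using h2

end Zero

section Main

variable {k : Type w} [Field k]
  {D E : Type u} [Category.{v} D] [Preadditive D] [Linear k D] [HasZeroObject D] [HasShift D ℤ]
  [∀ n : ℤ, (shiftFunctor D n).Additive] [Pretriangulated D]
  [Category.{v} E] [Preadditive E] [Linear k E] [HasZeroObject E] [HasShift E ℤ]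
  [∀ n : ℤ, (shiftFunctor E n).Additive] [∀ n : ℤ, (shiftFunctor E n).Linear k]
  [Pretriangulated E]
  {A : Type u} [Category.{v} A] [Preadditive A] [Linear k A] [HasZeroObject A] [HasShift A ℤ]
  [∀ n : ℤ, (shiftFunctor A n).Additive] [Pretriangulated A]
  {P : D ⥤ E} [P.CommShift ℤ] [P.IsTriangulated] [P.Linear k] {Q : E ⥤ D} {adj : P ⊣ Q}

/-- Serre duality, in the form `Hom(X, Y) = 0 ↔ Hom(Y, N X [2]) = 0`. -/
lemma serre_iff (S : AnticanonicalCurve k adj) (X Y : D) :
    (∀ f : X ⟶ Y, f = 0) ↔ ∀ g : Y ⟶ (S.N X)⟦(2 : ℤ)⟧, g = 0 := by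
  obtain ⟨e⟩ := S.serre X Y
  constructor
  · intro h g
    have h1 : e.symm g = 0 := by
      ext f
      rw [h f]; simp
    have := congrArg e h1
    simpa using this
  · intro h f
    apply (Module.forall_dual_apply_eq_zero_iff k f).1
    intro φ
    have : φ = 0 := by
      apply e.injective
      rw [h (e φ), map_zero]
    rw [this]; rfl

variable (α : A ⥤ D) [α.CommShift ℤ] [α.IsTriangulated] [α.Linear k] [α.Full] [α.Faithful]

/-- For `x` simple of its class, the counit `ΦRx → x` has a cone `x → T` which is zero or `ΦRx` is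
zero. -/
lemma dichotomy [Subsingleton (K0 A)] (S : AnticanonicalCurve k adj) {β : D ⥤ A} (adjR : α ⊣ β)
    (x : E) (hx : IsSimpleOfClass k x) :
    ∃ (T : E) (w : x ⟶ T) (d : T ⟶ (P.obj (α.obj (β.obj (Q.obj x))))⟦(1 : ℤ)⟧),
      Triangle.mk (eps adjR adj x) w d ∈ distTriang E ∧ HasScalarEnd k T ∧
      cls T = cls x ∧ (w = 0 ∨ IsZero (P.obj (α.obj (β.obj (Q.obj x))))) := by
  obtain ⟨T, w, d, hT⟩ := distinguished_cocone_triangle (eps adjR adj x)
  have hS : ∀ X Y : D, (∀ f : X ⟶ Y, f = 0) → ∀ g : Y ⟶ (S.N X)⟦(2 : ℤ)⟧, g = 0 :=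
    fun X Y => (serre_iff S X Y).1
  obtain ⟨hdec, hinj⟩ := dec_inj α adjR adj S.N hS S.inc S.conn S.dist S.duality x
  have hs : HasScalarEnd k T :=
    scalarEnd_cone (k := k) (α ⋙ P) x (β.obj (Q.obj x)) (eps adjR adj x) hx.scalar
      (fun G m => eps_exists adjR adj x G m) (fun G a b => eps_unique adjR adj x G a b)
      (fun G f => hdec G f) (fun G g => hinj G g) T w d hT
  have h0 : cls (P.obj (α.obj (β.obj (Q.obj x)))) = 0 :=
    cls_map_eq_zero (α ⋙ P) (β.obj (Q.obj x))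
  refine ⟨T, w, d, hT, hs, ?_, zero_or_isZero hx h0 hT hs⟩
  have := cls_triangle _ hT
  change cls x = cls (P.obj (α.obj (β.obj (Q.obj x)))) + cls T at this
  rw [this, h0, zero_add]

/-- If `ΦRx = 0` then there are no nonzero maps from `ΦG` to `x[j]`. -/
lemma no_maps {β : D ⥤ A} (adjR : α ⊣ β) (adj' : P ⊣ Q) (x : E)
    (h : IsZero (P.obj (α.obj (β.obj (Q.obj x))))) (G : A) (j : ℤ)
    (f : P.obj (α.obj G) ⟶ x⟦j⟧) : f = 0 := by
  -- the case `j = 0`
  have h0 : ∀ (G : A) (m : P.obj (α.obj G) ⟶ x), m = 0 := by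
    intro G m
    obtain ⟨a, rfl⟩ := eps_exists adjR adj' x G m
    have : eps adjR adj' x = 0 := h.eq_of_src _ _
    rw [this, comp_zero]
  let F := α ⋙ P
  have h1 : ∀ m : (F.obj G)⟦-j⟧ ⟶ x, m = 0 := by
    intro m
    have := h0 (G⟦-j⟧) ((F.commShiftIso (-j)).hom.app G ≫ m)
    exact (cancel_epi ((F.commShiftIso (-j)).hom.app G)).1 (this.trans comp_zero.symm)
  let e : (x⟦j⟧)⟦-j⟧ ≅ x := (shiftFunctorCompIsoId E j (-j) (by simp)).app x
  have h2 : f⟦-j⟧' ≫ e.hom = 0 := h1 _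
  have h3 : f⟦-j⟧' = 0 := (cancel_mono e.hom).1 (h2.trans zero_comp.symm)
  exact (shiftFunctor E (-j)).map_injective (h3.trans (Functor.map_zero _ _ _).symm)

/-- If `w = 0` in a distinguished triangle `Y → x → T → Y[1]` then `Y = x ⊕ T[-1]`. -/
lemma split_of_zero {x Y T : E} {e : Y ⟶ x} {w : x ⟶ T} {d : T ⟶ Y⟦(1 : ℤ)⟧}
    (hT : Triangle.mk e w d ∈ distTriang E) (hw : w = 0) (m : ℤ) (i : T ≅ x⟦2 * m⟧) :
    Nonempty (Y ≅ x ⊞ x⟦2 * m - 1⟧) := by
  have h1 := inv_rot_of_distTriang _ hT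
  obtain ⟨j, -, -⟩ := exists_iso_binaryBiproduct_of_distTriang _ h1 (by
    change w ≫ _ = 0
    rw [hw, zero_comp])
  change Y ≅ (T⟦(-1 : ℤ)⟧) ⊞ x at j
  let l : T⟦(-1 : ℤ)⟧ ≅ x⟦2 * m - 1⟧ := (shiftFunctor E (-1 : ℤ)).mapIso i ≪≫
    ((shiftFunctorAdd' E (2 * m) (-1) (2 * m - 1) (by ring)).app x).symm
  exact ⟨j ≪≫ biprod.braiding _ _ ≪≫ biprod.mapIso (Iso.refl _) l⟩

/-- The good point: if some line bundle exists, then `R pt = 0`. -/
lemma isZero_pt [Subsingleton (K0 A)] [α.IsRightAdjoint] (S : AnticanonicalCurve k adj)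
    {β : D ⥤ A} (adjR : α ⊣ β) (L : D) (hL : S.line L) :
    IsZero (P.obj (α.obj (β.obj (Q.obj S.pt)))) := by
  obtain ⟨T, w, d, hT, hs, hc, h | h⟩ := dichotomy α S adjR S.pt S.pt_simple
  · exfalso
    obtain ⟨m, ⟨i⟩⟩ := S.pt_simple.unique T hs hc
    let adjL := Adjunction.ofIsRightAdjoint α
    obtain ⟨B, b, q, hB⟩ := distinguished_cocone_triangle₁ (adjL.unit.app L)
    have hort := fun (G : A) (g : B ⟶ α.obj G) => ortho_left α adjL hB G g
    have h1 : S.rank (cls B) = 0 := by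
      apply S.pt_test _ B m (split_of_zero hT h m i)
      intro j f
      have h2 := hort ((β.obj (Q.obj S.pt))⟦j⟧) (f ≫ (α.commShiftIso j).inv.app _)
      exact (cancel_mono ((α.commShiftIso j).inv.app (β.obj (Q.obj S.pt)))).1
        (h2.trans zero_comp.symm)
    have h5 := cls_triangle _ hB
    change cls L = cls B + cls (α.obj _) at h5
    rw [cls_map_eq_zero α, add_zero] at h5
    exact S.line_rank L hL (by rw [h5]; exact h1)
  · exact h

/-- `R(L|_C) = 0` for every line bundle `L`. -/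
lemma isZero_line [Subsingleton (K0 A)] [α.IsRightAdjoint] (S : AnticanonicalCurve k adj)
    {β : D ⥤ A} (adjR : α ⊣ β) (L : D) (hL : S.line L) :
    IsZero (P.obj (α.obj (β.obj (Q.obj (P.obj L))))) := by
  obtain ⟨T, w, d, hT, hs, hc, h | h⟩ := dichotomy α S adjR (P.obj L) (S.line_simple L hL)
  · exfalso
    obtain ⟨s, hs⟩ := S.line_pt L hL
    have hp := isZero_pt α S adjR L hL
    have h0 : ∀ (G : A) (m : P.obj (α.obj G) ⟶ S.pt), m = 0 := by
      intro G m
      obtain ⟨a, rfl⟩ := eps_exists adjR adj S.pt G m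
      have : eps adjR adj S.pt = 0 := hp.eq_of_src _ _
      rw [this, comp_zero]
    obtain ⟨s', hs'⟩ := yo2 hT s (h0 _ _)
    rw [h, zero_comp] at hs'
    exact hs hs'
  · exact h

/-- The restricted line bundles detect the nonzero objects of `E`. -/
lemma line_test_curve (S : AnticanonicalCurve k adj) (M : E)
    (h : ∀ L, S.line L → ∀ (j : ℤ) (f : M ⟶ (P.obj L)⟦j⟧), f = 0) : IsZero M := by
  apply S.conservative
  apply S.line_test
  intro L hL j f
  -- `Hom(M, P(L[i])) = 0`, so `Hom(QM, N(L[i])[1]) = 0`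
  have h1 : ∀ (i : ℤ) (g : Q.obj M ⟶ (S.N (L⟦i⟧))⟦(1 : ℤ)⟧), g = 0 := by
    intro i g
    obtain ⟨g', hg'⟩ := (S.duality M (L⟦i⟧)).2 g
    dsimp only at hg'
    have h2 := h L hL i (g' ≫ (P.commShiftIso i).hom.app L)
    have h3 : g' = 0 :=
      (cancel_mono ((P.commShiftIso i).hom.app L)).1 (h2.trans zero_comp.symm)
    have hQ : Q.Additive := adj.right_adjoint_additive
    rw [← hg', h3, Q.map_zero, zero_comp]
  -- so `Hom(L[i], QM[1]) = 0` by Serre duality
  have h2 : ∀ (i : ℤ) (g : L⟦i⟧ ⟶ (Q.obj M)⟦(1 : ℤ)⟧), g = 0 := by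
    intro i
    refine (serre_iff S _ _).2 fun g => ?_
    let e : (S.N (L⟦i⟧))⟦(2 : ℤ)⟧ ≅ ((S.N (L⟦i⟧))⟦(1 : ℤ)⟧)⟦(1 : ℤ)⟧ :=
      (shiftFunctorAdd' D (1 : ℤ) 1 2 (by norm_num)).app _
    obtain ⟨g', hg'⟩ := (shiftFunctor D (1 : ℤ)).map_surjective (g ≫ e.hom)
    rw [h1 i g', Functor.map_zero] at hg'
    exact (cancel_mono e.hom).1 (hg'.symm.trans zero_comp.symm)
  -- shift `f` by `1 - j`
  let e : ((Q.obj M)⟦j⟧)⟦1 - j⟧ ≅ (Q.obj M)⟦(1 : ℤ)⟧ :=
    ((shiftFunctorAdd' D j (1 - j) 1 (by ring)).app _).symm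
  have h3 := h2 (1 - j) (f⟦1 - j⟧' ≫ e.hom)
  have h4 : f⟦1 - j⟧' = 0 := (cancel_mono e.hom).1 (h3.trans zero_comp.symm)
  exact (shiftFunctor D (1 - j)).map_injective (h4.trans (Functor.map_zero _ _ _).symm)

/-- The restriction to the curve of every object of `A` is zero. -/
lemma isZero_restrict [Subsingleton (K0 A)] [α.IsRightAdjoint] (S : AnticanonicalCurve k adj)
    {β : D ⥤ A} (adjR : α ⊣ β) (G : A) : IsZero (P.obj (α.obj G)) := by
  apply line_test_curve S
  intro L hL j f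
  exact no_maps α adjR adj (P.obj L) (isZero_line α S adjR L hL) G j f

/-- Every object of `A` is zero. -/
theorem isZero_of_k0 [Subsingleton (K0 A)] [α.IsLeftAdjoint] [α.IsRightAdjoint]
    (S : AnticanonicalCurve k adj) (G : A) : IsZero G := by
  let adjR := Adjunction.ofIsLeftAdjoint α
  let adjL := Adjunction.ofIsRightAdjoint α
  have hP : ∀ G : A, IsZero (P.obj (α.obj G)) := fun G => isZero_restrict α S adjR G
  -- `N (αG) = αG`
  have hN : ∀ G : A, IsIso (S.inc (α.obj G)) := by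
    intro G
    have h1 : IsZero (Q.obj (P.obj (α.obj G))) := by
      rw [IsZero.iff_id_eq_zero]
      have hQ : Q.Additive := adj.right_adjoint_additive
      rw [← Q.map_id, (hP G).eq_of_src (𝟙 _) 0, Q.map_zero]
    exact (Triangle.isZero₃_iff_isIso₁ _ (S.dist (α.obj G))).1 h1
  -- every line bundle is left orthogonal to the image of `α`
  have key : ∀ L, S.line L → ∀ (G : A) (f : L ⟶ α.obj G), f = 0 := by
    intro L hL
    obtain ⟨B, b, q, hB⟩ := distinguished_cocone_triangle₁ (adjL.unit.app L)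
    have hort := fun (G : A) (g : B ⟶ α.obj G) => ortho_left α adjL hB G g
    have hq : q = 0 := by
      refine (serre_iff S _ _).2 ?_ q
      intro g
      have := hN (Functor.obj (Functor.leftAdjoint α) L)
      let e : (S.N (α.obj (Functor.obj (Functor.leftAdjoint α) L)))⟦(2 : ℤ)⟧ ≅
          ((α.obj ((Functor.obj (Functor.leftAdjoint α) L)⟦(1 : ℤ)⟧)))⟦(1 : ℤ)⟧ :=
        (shiftFunctor D (2 : ℤ)).mapIso (asIso (S.inc (α.obj _))) ≪≫
        (shiftFunctorAdd' D (1 : ℤ) 1 2 (by norm_num)).app _ ≪≫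
        (shiftFunctor D (1 : ℤ)).mapIso ((α.commShiftIso (1 : ℤ)).app _).symm
      obtain ⟨g', hg'⟩ := (shiftFunctor D (1 : ℤ)).map_surjective (g ≫ e.hom)
      rw [hort _ g', Functor.map_zero] at hg'
      exact (cancel_mono e.hom).1 (hg'.symm.trans zero_comp.symm)
    obtain ⟨s, hs⟩ := co3 hB (𝟙 _) (by rw [hq, comp_zero])
    obtain ⟨c, hc⟩ := S.line_scalar L hL (adjL.unit.app L ≫ s)
    have h1 : adjL.unit.app L = c • adjL.unit.app L := by
      have h2 : adjL.unit.app L = (adjL.unit.app L ≫ s) ≫ adjL.unit.app L := by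
        rw [Category.assoc, ← hs, Category.comp_id]
      rw [hc] at h2
      simpa using h2
    have h3 : (1 - c) • adjL.unit.app L = 0 := by
      rw [sub_smul, one_smul, ← h1, sub_self]
    rcases smul_eq_zero.1 h3 with h4 | h4
    · -- `L = αα^*L`: impossible
      exfalso
      have hc1 : c = 1 := (sub_eq_zero.1 h4).symm
      have hb : b = 0 := by
        have h5 : b ≫ adjL.unit.app L = 0 := comp12 hB
        have h6 : b = (b ≫ adjL.unit.app L) ≫ s := by
          rw [Category.assoc, hc, hc1]; simp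
        rw [h6, h5, zero_comp]
      have hzB : IsZero B := (Triangle.isZero₁_iff _ hB).2 ⟨hb, hq⟩
      have h7 := cls_triangle _ hB
      change cls L = cls B + cls (α.obj _) at h7
      rw [cls_map_eq_zero α, add_zero, cls_of_isZero hzB] at h7
      exact S.line_rank L hL (by rw [h7, map_zero])
    · -- `αα^*L = 0`
      intro G f
      have h5 : IsZero (α.obj (Functor.obj (Functor.leftAdjoint α) L)) := by
        rw [IsZero.iff_id_eq_zero]
        exact hs.trans (by rw [h4, comp_zero])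
      have h6 : IsZero (Functor.obj (Functor.leftAdjoint α) L) := by
        rw [IsZero.iff_id_eq_zero]
        apply α.map_injective
        exact h5.eq_of_src _ _
      apply (adjL.homEquiv _ _).symm.injective
      exact h6.eq_of_src _ _
  have h8 : IsZero (α.obj G) := by
    apply S.line_test
    intro L hL j f
    have := key L hL (G⟦j⟧) (f ≫ (α.commShiftIso j).inv.app G)
    exact (cancel_mono ((α.commShiftIso j).inv.app G)).1 (this.trans zero_comp.symm)
  rw [IsZero.iff_id_eq_zero]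
  apply α.map_injective
  exact h8.eq_of_src _ _

end Main

end Pool.Agent.Phantom
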