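import Pool.Agent.Phantom.Decomp

/-!
# The dichotomy for simple objects
-/

set_option autoImplicit false
set_option linter.unusedSectionVars false

open CategoryTheory CategoryTheory.Limits CategoryTheory.Pretriangulated

universe v u w

namespace Pool.Agent.Phantom

section Dichotomy

variable {k : Type w} [Field k]
  {E : Type u} [Category.{v} E] [Preadditive E] [Linear k E] [HasZeroObject E] [HasShift E ℤ]
  [∀ n : ℤ, (shiftFunctor E n).Additive] [Pretriangulated E]

/-- In a distinguished triangle `Y → x → T → Y[1]` with `[Y] = 0`, `x` simple of its class and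
`T` with scalar endomorphisms, `w : x → T` is zero or an isomorphism. -/
lemma zero_or_isZero {x Y T : E} (hx : IsSimpleOfClass k x) (hY : cls Y = 0)
    {e : Y ⟶ x} {w : x ⟶ T} {d : T ⟶ Y⟦(1 : ℤ)⟧} (hT : Triangle.mk e w d ∈ distTriang E)
    (hs : HasScalarEnd k T) : w = 0 ∨ IsZero Y := by
  by_cases hw : w = 0
  · exact Or.inl hw
  · right
    have hc : cls T = cls x := by
      have := cls_triangle _ hT
      change cls x = cls Y + cls T at this
      rw [this, hY, zero_add]
    obtain ⟨m, ⟨i⟩⟩ := hx.unique T hs hc
    have hm : m = 0 := by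
      by_contra hm
      have := hx.vanish m hm (w ≫ i.hom)
      exact hw ((cancel_mono i.hom).1 (this.trans zero_comp.symm))
    subst hm
    have j : T ≅ x := i ≪≫ (shiftFunctorZero' E (2 * 0 : ℤ) (by norm_num)).app x
    obtain ⟨c, hc⟩ := hx.scalar (w ≫ j.hom)
    have hc0 : c ≠ 0 := by
      rintro rfl
      rw [zero_smul] at hc
      exact hw ((cancel_mono j.hom).1 (hc.trans zero_comp.symm))
    have hiso : IsIso (w ≫ j.hom) := by
      rw [hc]
      exact ⟨c⁻¹ • 𝟙 x, by simp [smul_smul, hc0], by simp [smul_smul, hc0]⟩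
    have hiso' : IsIso w := by
      have : w = (w ≫ j.hom) ≫ j.inv := by simp
      rw [this]
      infer_instance
    exact Triangle.isZero₁_of_isIso₂ _ hT hiso'

end Dichotomy

end Pool.Agent.Phantom
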